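import Pool.Agent.RS.StmtsF

/-! # RS: row ST0 -/

set_option autoImplicit false

namespace Pool.Agent.RS.H51

open MvPolynomial Pool.Agent.RS

theorem st0 (hPjb : PjbStmt) : St0Stmt := by
  intro E _ ι _ _ a0 b0 Q R h0 hn
  obtain ⟨h1, -, -, -, -, -, -, -⟩ := hPjb E
  have hall : ∀ f : MvPolynomial ℕ E, f ∈ Pj E (fun _ => 0) 0 := by
    intro f
    unfold Pj
    rw [h1]
    intro i _
    simp
  have hone : (1 : MvPolynomial ℕ E).totalDegree ≤ R := by simp
  refine ⟨⟨fun l hl => absurd hl (Nat.not_lt_zero l), rfl, fun l hl => absurd hl (Nat.not_lt_zero l)⟩,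
    hall _, one_ne_zero, hone, ?_, ?_, fun l hl => absurd hl (Nat.not_lt_zero l), ?_, hn⟩
  · intro w κ _ _
    rfl
  · intro f s
    refine ⟨f, 0, hall f, ?_⟩
    simp
  · intro t
    exact ⟨rfl, hall _, hall _, (h0 t).1, (h0 t).2.1, (h0 t).2.2⟩

end Pool.Agent.RS.H51
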